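import Mathlib
import Pool.Agent.H892.ZL.Stm2

set_option autoImplicit false

/-!
# The number of base points
-/

namespace Pool.Agent.H100.ZL

open Pool.Agent.H892.ZL
open MvPolynomial Matrix
open scoped LinearAlgebra.Projectivization

theorem t_NCARD : S_NCARD := by
  intro Q P hb hli
  have hP : ∀ i, P i ≠ 0 := by
    intro i
    obtain ⟨j, hj⟩ := exists_ne i
    exact (hli i j hj.symm).ne_zero 0
  let f : Fin 8 → ℙ ℂ (Fin 4 → ℂ) := fun i => Projectivization.mk ℂ (P i) (hP i)
  have hf : Function.Injective f := by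
    intro i j hij
    by_contra hne
    obtain ⟨a, ha⟩ := (Projectivization.mk_eq_mk_iff' ℂ (P i) (P j) (hP i) (hP j)).1 hij
    have h1 := LinearIndependent.pair_iff.1 (hli i j hne) (-1) a (by rw [ha, neg_smul, one_smul, neg_add_cancel])
    exact one_ne_zero (neg_eq_zero.1 h1.1)
  have hr : base Q = Set.range f := by
    ext p
    constructor
    · intro hp
      obtain ⟨i, c, hc, he⟩ := (hb p.rep).1 ⟨p.rep_nonzero, hp⟩
      refine ⟨i, ?_⟩
      rw [← p.mk_rep]
      refine (Projectivization.mk_eq_mk_iff' ℂ (P i) p.rep (hP i) p.rep_nonzero).2 ⟨c⁻¹, ?_⟩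
      rw [he, smul_smul, inv_mul_cancel₀ hc, one_smul]
    · rintro ⟨i, rfl⟩
      obtain ⟨a, ha⟩ := Projectivization.exists_smul_eq_mk_rep ℂ (P i) (hP i)
      refine ((hb _).2 ⟨i, (a : ℂ), a.ne_zero, ?_⟩).2
      exact ha.symm
  rw [hr, ← Set.image_univ, Set.ncard_image_of_injective _ hf, Set.ncard_univ, Nat.card_eq_fintype_card,
    Fintype.card_fin]

end Pool.Agent.H100.ZL
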